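import Pool.Agent.Run7.h386.PW.Iface

/-!
# Project PW (helper386), piece BAD (helper379): the energy of the bad multipliers
-/

set_option autoImplicit false

namespace Pool.Agent.Run7.h379.PW

open Finset Pool.Agent.Run7.h386.DE Pool.Agent.Run7.h386.DL Pool.Agent.Run7.h386.PW
open scoped Classical

theorem t_BAD : S_BAD := by
  intro α W T q a R R' E hq hE hgen
  set KK : Finset (((ℤ × ℤ) × (ℤ × ℤ)) × ((ℤ × ℤ) × (ℤ × ℤ))) := (R ×ˢ R) ×ˢ (R' ×ˢ R') with hKK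
  have hcard : (KK.card : ℝ) * E = ((R.card : ℝ) * R'.card) ^ 2 * E := by
    rw [hKK, Finset.card_product, Finset.card_product, Finset.card_product]
    push_cast
    ring
  rw [← hcard]
  refine sum_le_cover (badW T q a R R') KK (fun k => T.filter fun t : ℕ => ∃ i : ℕ,
    ¬ (q : ℤ) ^ (i + 1) ∣ k.1.1.1 - k.1.2.1 ∧
    (q : ℤ) ^ (i + a) ∣ (t : ℤ) * (k.1.1.1 - k.1.2.1) + (k.2.1.2 - k.2.2.2))
    (fun t => NE α (t : ℤ) W) (fun t => NE_nonneg _ _ _) ?_ (b := E) ?_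
  · intro t ht
    obtain ⟨htT, r, hr, r₁, hr₁, s, hs, s₁, hs₁, i, h1, h2⟩ := Finset.mem_filter.1 ht
    refine ⟨((r, r₁), (s, s₁)), ?_, ?_⟩
    · rw [hKK]
      simp only [Finset.mem_product]
      exact ⟨⟨hr, hr₁⟩, ⟨hs, hs₁⟩⟩
    · exact Finset.mem_filter.2 ⟨htT, i, h1, h2⟩
  · intro k _
    refine hgen _ (Finset.filter_subset _ _) ?_
    intro t ht t' ht'
    obtain ⟨i, hi1, hi2⟩ := (Finset.mem_filter.1 ht).2
    obtain ⟨i', hi1', hi2'⟩ := (Finset.mem_filter.1 ht').2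
    set d : ℤ := k.1.1.1 - k.1.2.1 with hd
    set e : ℤ := k.2.1.2 - k.2.2.2 with he
    have key : ∀ j : ℕ, j ≤ i → j ≤ i' → ¬ (q : ℤ) ^ (j + 1) ∣ d → (q : ℤ) ^ a ∣ (t : ℤ) - t' := by
      intro j hj hj' hjd
      have h1 : (q : ℤ) ^ (j + a) ∣ (t : ℤ) * d + e := (pow_dvd_pow _ (by omega)).trans hi2
      have h2 : (q : ℤ) ^ (j + a) ∣ (t' : ℤ) * d + e := (pow_dvd_pow _ (by omega)).trans hi2'
      have h3 : (q : ℤ) ^ (j + a) ∣ ((t : ℤ) - t') * d := by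
        have := dvd_sub h1 h2
        have e1 : (t : ℤ) * d + e - ((t' : ℤ) * d + e) = ((t : ℤ) - t') * d := by ring
        rwa [e1] at this
      exact pow_dvd_aux (Nat.prime_iff_prime_int.1 hq) j _ h3 hjd
    rcases le_total i i' with h | h
    · exact key i le_rfl h hi1
    · exact key i' h le_rfl hi1'

end Pool.Agent.Run7.h379.PW
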