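import Pool.Agent.Run7.h386.PW.Iface

/-!
# Project PW (helper386), piece USE (helper379): the dilated form of the induction hypothesis
-/

set_option autoImplicit false

namespace Pool.Agent.Run7.h379.PW

open Finset Pool.Agent.Run7.h386.DE Pool.Agent.Run7.h386.DL Pool.Agent.Run7.h386.PW
open scoped Classical

/-- dilation of the first coordinate -/
lemma NE_dil (α : ℝ) (t u : ℤ) (hu : u ≠ 0) (V : Finset (ℤ × ℤ)) :
    NE α (t * u) V = NE α t (V.image fun y => (u * y.1, y.2)) := by
  set g : ℤ × ℤ → ℤ × ℤ := fun y => (u * y.1, y.2) with hg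
  have hinj : Function.Injective g := by
    intro y y' h
    simp only [hg, Prod.mk.injEq] at h
    exact Prod.ext (mul_left_cancel₀ hu h.1) h.2
  have h2 : ∀ y, ph t (g y) = ph (t * u) y := by
    intro y
    simp only [ph, hg]
    ring
  unfold NE
  rw [Finset.sum_image fun y _ y' _ h => hinj h]
  refine Finset.sum_congr rfl fun y _ => ?_
  rw [h2]
  congr 2
  unfold rp
  rw [Finset.filter_image, Finset.card_image_of_injective _ hinj]
  simp only [h2]

theorem t_USE : S_USE := by
  intro α δ K M T h hα hδ hK u hu V m hm0 hVm hmM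
  rcases V.eq_empty_or_nonempty with hV | hV
  · subst hV
    simp [TW, NE]
  have hV0 : (0 : ℝ) < V.card := by exact_mod_cast hV.card_pos
  have hm : 0 ≤ m ^ (α * δ) := Real.rpow_nonneg hm0 _
  have hinj : Function.Injective (fun y : ℤ × ℤ => (u * y.1, y.2)) := by
    intro y y' h
    simp only [Prod.mk.injEq] at h
    exact Prod.ext (mul_left_cancel₀ hu h.1) h.2
  have hc : (V.image fun y : ℤ × ℤ => (u * y.1, y.2)).card = V.card :=
    Finset.card_image_of_injective _ hinj
  have h1 : TW α T u V = TW α T 1 (V.image fun y => (u * y.1, y.2)) := by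
    unfold TW
    refine Finset.sum_congr rfl fun t _ => ?_
    rw [mul_comm u, one_mul, NE_dil α (t : ℤ) u hu V]
  rw [h1]
  have h2 := h (V.image fun y => (u * y.1, y.2)) (hV.image _) (by rw [hc]; exact hVm.trans hmM)
  rw [hc] at h2
  refine h2.trans ?_
  rw [Real.rpow_add hV0, Real.rpow_one]
  have h3 : (V.card : ℝ) ^ (α * δ) ≤ m ^ (α * δ) :=
    Real.rpow_le_rpow hV0.le hVm (mul_nonneg hα hδ)
  have h4 : 0 ≤ (T.card : ℝ) * V.card * K := by positivity
  calc (T.card : ℝ) * (V.card * (V.card : ℝ) ^ (α * δ)) * K =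
      (T.card : ℝ) * V.card * K * (V.card : ℝ) ^ (α * δ) := by ring
    _ ≤ (T.card : ℝ) * V.card * K * m ^ (α * δ) := mul_le_mul_of_nonneg_left h3 h4
    _ = _ := by ring

end Pool.Agent.Run7.h379.PW
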